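import Mathlib
import Pool.Agent.H892.KT.Stm

/-!
# Kato surfaces: composition adds the first terms
-/

set_option autoImplicit false

open Filter Topology Set Asymptotics
open scoped Manifold ContDiff

namespace Pool.Agent.H727.KT

open Pool.Agent.H892.KT

/-- powers of the norm near zero -/
theorem pw {a b : ℕ} (h : b ≤ a) :
    (fun y : ℂ × ℂ => ‖y‖ ^ a) =O[𝓝 0] fun y : ℂ × ℂ => ‖y‖ ^ b := by
  refine IsBigO.of_bound 1 ?_
  have h1 : ∀ᶠ y : ℂ × ℂ in 𝓝 0, ‖y‖ < 1 := by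
    have h2 : Tendsto (fun y : ℂ × ℂ => ‖y‖) (𝓝 0) (𝓝 0) := by
      have h3 : Continuous (fun y : ℂ × ℂ => ‖y‖) := continuous_norm
      have h4 := h3.tendsto 0
      rwa [norm_zero] at h4
    exact h2.eventually (gt_mem_nhds zero_lt_one)
  filter_upwards [h1] with y hy
  rw [Real.norm_of_nonneg (by positivity), Real.norm_of_nonneg (by positivity), one_mul]
  exact pow_le_pow_of_le_one (norm_nonneg _) hy.le h

/-- two functions of order `m` which agree to order `m + 1` -/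
def Pm (m : ℕ) (f f' : ℂ × ℂ → ℂ) : Prop :=
  (f =O[𝓝 0] fun y : ℂ × ℂ => ‖y‖ ^ m) ∧ (f' =O[𝓝 0] fun y : ℂ × ℂ => ‖y‖ ^ m) ∧
    (fun y => f y - f' y) =O[𝓝 0] fun y : ℂ × ℂ => ‖y‖ ^ (m + 1)

theorem Pm.mul {m n : ℕ} {f f' g g' : ℂ × ℂ → ℂ} (h : Pm m f f') (h' : Pm n g g') :
    Pm (m + n) (fun y => f y * g y) (fun y => f' y * g' y) := by
  obtain ⟨h1, h2, h3⟩ := h
  obtain ⟨h4, h5, h6⟩ := h'
  refine ⟨?_, ?_, ?_⟩
  · have h7 := h1.mul h4
    refine h7.congr_right fun y => ?_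
    rw [pow_add]
  · have h7 := h2.mul h5
    refine h7.congr_right fun y => ?_
    rw [pow_add]
  · have h7 : (fun y => (f y - f' y) * g y) =O[𝓝 0] fun y : ℂ × ℂ => ‖y‖ ^ (m + n + 1) :=
      (h3.mul h4).congr_right fun y => by ring
    have h8 : (fun y => f' y * (g y - g' y)) =O[𝓝 0] fun y : ℂ × ℂ => ‖y‖ ^ (m + n + 1) :=
      (h2.mul h6).congr_right fun y => by ring
    refine (h7.add h8).congr_left fun y => ?_
    ring

theorem Pm.pow {f f' : ℂ × ℂ → ℂ} (h : Pm 1 f f') (j : ℕ) :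
    Pm j (fun y => f y ^ j) (fun y => f' y ^ j) := by
  induction j with
  | zero =>
    refine ⟨?_, ?_, ?_⟩
    · refine (isBigO_refl (fun _ : ℂ × ℂ => (1 : ℂ)) (𝓝 0)).trans ?_ |>.congr_left fun y => ?_
      · exact IsBigO.of_bound 1 (Eventually.of_forall fun y => by simp)
      · simp
    · refine (isBigO_refl (fun _ : ℂ × ℂ => (1 : ℂ)) (𝓝 0)).trans ?_ |>.congr_left fun y => ?_
      · exact IsBigO.of_bound 1 (Eventually.of_forall fun y => by simp)
      · simp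
    · refine (isBigO_zero _ (𝓝 0)).congr_left fun y => ?_
      simp
  | succ j ih =>
    have h1 := ih.mul h
    have e : ∀ g : ℂ × ℂ → ℂ, (fun y => g y ^ j * g y) = fun y => g y ^ (j + 1) := by
      intro g
      funext y
      rw [pow_succ]
    rw [e f, e f'] at h1
    exact h1

/-- the values of a homogeneous polynomial -/
theorem Pm.hp {a a' b b' : ℂ × ℂ → ℂ} (ha : Pm 1 a a') (hb : Pm 1 b b') (k : ℕ) (c : ℕ → ℂ) :
    ((fun y => Pool.Agent.H892.KT.hp k c (a' y, b' y)) =O[𝓝 0] fun y : ℂ × ℂ => ‖y‖ ^ k) ∧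
    ((fun y => Pool.Agent.H892.KT.hp k c (a y, b y) - Pool.Agent.H892.KT.hp k c (a' y, b' y))
      =O[𝓝 0] fun y : ℂ × ℂ => ‖y‖ ^ (k + 1)) := by
  have h1 : ∀ j ∈ Finset.range (k + 1), Pm k (fun y => a y ^ j * b y ^ (k - j))
      (fun y => a' y ^ j * b' y ^ (k - j)) := by
    intro j hj
    rw [Finset.mem_range] at hj
    have h2 := (ha.pow j).mul (hb.pow (k - j))
    have e : j + (k - j) = k := by omega
    rw [e] at h2
    exact h2
  constructor
  · have h2 : (fun y => ∑ j ∈ Finset.range (k + 1), c j * (a' y ^ j * b' y ^ (k - j)))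
        =O[𝓝 0] fun y : ℂ × ℂ => ‖y‖ ^ k :=
      IsBigO.fun_sum fun j hj => (h1 j hj).2.1.const_mul_left (c j)
    refine h2.congr_left fun y => ?_
    show _ = ∑ j ∈ Finset.range (k + 1), c j * a' y ^ j * b' y ^ (k - j)
    exact Finset.sum_congr rfl fun j _ => by ring
  · have h2 : (fun y => ∑ j ∈ Finset.range (k + 1), c j *
        (a y ^ j * b y ^ (k - j) - a' y ^ j * b' y ^ (k - j)))
        =O[𝓝 0] fun y : ℂ × ℂ => ‖y‖ ^ (k + 1) :=
      IsBigO.fun_sum fun j hj => (h1 j hj).2.2.const_mul_left (c j)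
    refine h2.congr_left fun y => ?_
    show _ = ∑ j ∈ Finset.range (k + 1), c j * a y ^ j * b y ^ (k - j) -
      ∑ j ∈ Finset.range (k + 1), c j * a' y ^ j * b' y ^ (k - j)
    rw [← Finset.sum_sub_distrib]
    exact Finset.sum_congr rfl fun j _ => by ring

/-- composition adds the first terms -/
theorem t_JADD (h1 : S_JCOMP) : S_JADD := by
  intro k c d c' d' hk ⟨g, hg, Eg⟩ ⟨g', hg', Eg'⟩
  have nrm1 : (fun y : ℂ × ℂ => y) =O[𝓝 0] fun y : ℂ × ℂ => ‖y‖ ^ 1 :=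
    IsBigO.of_bound 1 (Eventually.of_forall fun y => by simp)
  have f1 : (fun y : ℂ × ℂ => y.1) =O[𝓝 0] fun y : ℂ × ℂ => ‖y‖ ^ 1 :=
    isBigO_fst_prod'.trans nrm1
  have f2 : (fun y : ℂ × ℂ => y.2) =O[𝓝 0] fun y : ℂ × ℂ => ‖y‖ ^ 1 :=
    isBigO_snd_prod'.trans nrm1
  have z1 : ∀ f : ℂ × ℂ → ℂ, (fun y => f y - f y) =O[𝓝 0] fun y : ℂ × ℂ => ‖y‖ ^ (1 + 1) := by
    intro f
    refine (isBigO_zero _ (𝓝 0)).congr_left fun y => ?_
    rw [sub_self]
  have P1 : Pm 1 (fun y : ℂ × ℂ => y.1) (fun y => y.1) := ⟨f1, f1, z1 _⟩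
  have P2 : Pm 1 (fun y : ℂ × ℂ => y.2) (fun y => y.2) := ⟨f2, f2, z1 _⟩
  -- the homogeneous map is of order `k`
  have hk' : (hm k c' d') =O[𝓝 0] fun y : ℂ × ℂ => ‖y‖ ^ k :=
    (P1.hp P2 k c').1.prod_left (P1.hp P2 k d').1
  -- `g' y - y` is of order two
  have e2 : (fun y => g' y - y) =O[𝓝 0] fun y : ℂ × ℂ => ‖y‖ ^ 2 := by
    have h2 := (Eg'.trans (pw (show 2 ≤ k + 1 by omega))).add (hk'.trans (pw hk))
    refine h2.congr_left fun y => ?_
    abel
  have e1 : (fun y => g' y) =O[𝓝 0] fun y : ℂ × ℂ => ‖y‖ ^ 1 := by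
    have h2 := (e2.trans (pw (show 1 ≤ 2 by omega))).add nrm1
    refine h2.congr_left fun y => ?_
    abel
  have Q1 : Pm 1 (fun y => (g' y).1) (fun y => y.1) := by
    refine ⟨?_, f1, ?_⟩
    · exact isBigO_fst_prod'.trans e1
    · have h2 : (fun y => (g' y - y).1) =O[𝓝 0] fun y => g' y - y := isBigO_fst_prod'
      exact h2.trans e2
  have Q2 : Pm 1 (fun y => (g' y).2) (fun y => y.2) := by
    refine ⟨?_, f2, ?_⟩
    · exact isBigO_snd_prod'.trans e1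
    · have h2 : (fun y => (g' y - y).2) =O[𝓝 0] fun y => g' y - y := isBigO_snd_prod'
      exact h2.trans e2
  have e3 : (fun y => hm k c d (g' y) - hm k c d y) =O[𝓝 0]
      fun y : ℂ × ℂ => ‖y‖ ^ (k + 1) :=
    (Q1.hp Q2 k c).2.prod_left (Q1.hp Q2 k d).2
  -- the error term of `g`
  have t1 : Tendsto (fun y => g' y) (𝓝 0) (𝓝 0) := by
    have h2 : ContinuousAt g' 0 := g'.continuousAt hg'.mem
    have h3 : Tendsto g' (𝓝 0) (𝓝 (g' 0)) := h2
    rwa [hg'.zero] at h3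
  have e4 : (fun y => g (g' y) - g' y - hm k c d (g' y)) =O[𝓝 0]
      fun y : ℂ × ℂ => ‖y‖ ^ (k + 1) := by
    have h2 := Eg.comp_tendsto t1
    have h3 : (fun y => ‖g' y‖ ^ (k + 1)) =O[𝓝 0] fun y : ℂ × ℂ => ‖y‖ ^ (k + 1) := by
      have h4 := e1.norm_left.pow (k + 1)
      refine h4.congr_right fun y => ?_
      rw [pow_one]
    exact h2.trans h3
  refine ⟨g'.trans g, h1 g' g hg' hg, ?_⟩
  refine ((e4.add Eg').add e3).congr_left fun y => ?_
  show g (g' y) - g' y - hm k c d (g' y) + (g' y - y - hm k c' d' y) +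
    (hm k c d (g' y) - hm k c d y) = g (g' y) - y - (hm k c d y + hm k c' d' y)
  abel

end Pool.Agent.H727.KT
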